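import Pool.Agent.Lib.MP_76b05e_lc.Hard2
import Pool.Agent.Lib.MP_76b05e_lc.Member2

/-!
REACHABLE SUBSET for subsets of a fixed size `k ≥ 2` is PSPACE-complete.
-/

namespace Pool.Agent.Results.MP_76b05e_lc.PSPACEComplete

open Pool.Agent.Lib.MP_76b05e_lc

/-- For every fixed `k ≥ 2`, the problem REACHABLE SUBSET with subset size `k` (given a DFA and
a set `P` of `k` states, is `P = Q.w` for some word `w`?) is PSPACE-complete. -/
theorem result (k : ℕ) (hk : 2 ≤ k) :
    Pool.Agent.Lib.MP_76b05e_lc.PSPACEComplete (ReachableSubset k) := by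
  refine ⟨member k, fun L hL => ?_⟩
  obtain ⟨j, rfl⟩ : ∃ j, k = j + 1 := ⟨k - 1, by omega⟩
  exact hard j (by omega) L hL

end Pool.Agent.Results.MP_76b05e_lc.PSPACEComplete
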